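import Mathlib

set_option autoImplicit false

namespace Pool.Agent.Results.MP_611b97_al.Extend

/-- `P` is the set of positive elements of a bi-invariant total order on the subgroup `H` which
is also invariant under conjugation by `G`. -/
structure IsInvCone {G : Type} [Group G] (H : Subgroup G) (P : Set G) : Prop where
  sub : P ⊆ (H : Set G)
  mul : ∀ a ∈ P, ∀ b ∈ P, a * b ∈ P
  one : (1 : G) ∉ P
  tot : ∀ h ∈ H, h ≠ 1 → h ∈ P ∨ h⁻¹ ∈ P
  conj : ∀ g : G, ∀ a ∈ P, g * a * g⁻¹ ∈ P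

/-- The order with positive cone `P` on `H` is the restriction of a bi-invariant total order on
`G`. -/
def Extends {G : Type} [Group G] (H : Subgroup G) (P : Set G) : Prop :=
  ∃ Q : Set G,
    (∀ a ∈ Q, ∀ b ∈ Q, a * b ∈ Q) ∧
    (1 : G) ∉ Q ∧
    (∀ g : G, g ≠ 1 → g ∈ Q ∨ g⁻¹ ∈ Q) ∧
    (∀ g : G, ∀ a ∈ Q, g * a * g⁻¹ ∈ Q) ∧
    (∀ h ∈ H, (h ∈ Q ↔ h ∈ P))

section basic
variable {G : Type} [Group G] {H : Subgroup G} {P : Set G}

/-- elements with a positive power in `P` -/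
def QQ (P : Set G) : Set G := {g | ∃ n : ℕ, 1 ≤ n ∧ g ^ n ∈ P}

lemma P_pow (hP : IsInvCone H P) {a : G} (ha : a ∈ P) {n : ℕ} (hn : 1 ≤ n) : a ^ n ∈ P := by
  induction n, hn using Nat.le_induction with
  | base => simpa using ha
  | succ n _ ih => rw [pow_succ]; exact hP.mul _ ih _ ha

lemma P_not_inv (hP : IsInvCone H P) {a : G} (ha : a ∈ P) : a⁻¹ ∉ P := by
  intro h
  have := hP.mul _ ha _ h
  rw [mul_inv_cancel] at this
  exact hP.one this

lemma QQ_conj (hP : IsInvCone H P) {a : G} (ha : a ∈ QQ P) (g : G) : g * a * g⁻¹ ∈ QQ P := by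
  obtain ⟨n, hn, h⟩ := ha
  refine ⟨n, hn, ?_⟩
  rw [conj_pow]
  exact hP.conj g _ h

lemma QQ_of_pow {a : G} {m : ℕ} (hm : 1 ≤ m) (h : a ^ m ∈ QQ P) : a ∈ QQ P := by
  obtain ⟨n, hn, h⟩ := h
  exact ⟨m * n, Nat.one_le_iff_ne_zero.mpr (by positivity), by rwa [pow_mul]⟩

lemma QQ_pow (hP : IsInvCone H P) {a : G} (ha : a ∈ QQ P) {m : ℕ} (hm : 1 ≤ m) :
    a ^ m ∈ QQ P := by
  obtain ⟨n, hn, h⟩ := ha
  exact ⟨n, hn, by rw [← pow_mul, mul_comm, pow_mul]; exact P_pow hP h hm⟩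

lemma QQ_H (hP : IsInvCone H P) {a : G} (ha : a ∈ H) : a ∈ QQ P ↔ a ∈ P := by
  constructor
  · rintro ⟨n, hn, h⟩
    by_cases h1 : a = 1
    · rw [h1, one_pow] at h
      exact absurd h hP.one
    · rcases hP.tot a ha h1 with h2 | h2
      · exact h2
      · exfalso
        have h3 := P_pow hP h2 hn
        rw [inv_pow] at h3
        exact P_not_inv hP h h3
  · intro h
    exact ⟨1, le_refl _, by simpa using h⟩

lemma QQ_P (hP : IsInvCone H P) {a : G} (ha : a ∈ P) : a ∈ QQ P :=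
  (QQ_H hP (hP.sub ha)).mpr ha

lemma QQ_one (hP : IsInvCone H P) : (1 : G) ∉ QQ P := by
  rintro ⟨n, _, h⟩
  rw [one_pow] at h
  exact hP.one h

lemma QQ_tot (hP : IsInvCone H P) (htf : ∀ g : G, ∀ n : ℕ, 1 ≤ n → g ^ n = 1 → g = 1)
    (hper : ∀ g : G, ∃ n : ℕ, 1 ≤ n ∧ g ^ n ∈ H) {g : G} (hg : g ≠ 1) :
    g ∈ QQ P ∨ g⁻¹ ∈ QQ P := by
  obtain ⟨n, hn, h⟩ := hper g
  have h1 : g ^ n ≠ 1 := fun h' => hg (htf g n hn h')
  rcases hP.tot _ h h1 with h2 | h2
  · exact Or.inl ⟨n, hn, h2⟩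
  · exact Or.inr ⟨n, hn, by rwa [inv_pow]⟩

lemma QQ_not_inv (hP : IsInvCone H P) {a : G} (ha : a ∈ QQ P) : a⁻¹ ∉ QQ P := by
  rintro ⟨m, hm, h2⟩
  obtain ⟨n, hn, h1⟩ := ha
  have h3 : a ^ (n * m) ∈ P := by rw [pow_mul]; exact P_pow hP h1 hm
  have h4 : (a ^ (n * m))⁻¹ ∈ P := by
    rw [← inv_pow, mul_comm, pow_mul]; exact P_pow hP h2 hn
  exact P_not_inv hP h3 h4

lemma extends_of_closed (hP : IsInvCone H P)
    (htf : ∀ g : G, ∀ n : ℕ, 1 ≤ n → g ^ n = 1 → g = 1)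
    (hper : ∀ g : G, ∃ n : ℕ, 1 ≤ n ∧ g ^ n ∈ H)
    (hcl : ∀ a ∈ QQ P, ∀ b ∈ QQ P, a * b ∈ QQ P) : Extends H P :=
  ⟨QQ P, hcl, QQ_one hP, fun _ hg => QQ_tot hP htf hper hg, fun g _ ha => QQ_conj hP ha g,
    fun _ hh => QQ_H hP hh⟩

/-- collection: if `y x ∈ x y S` then `(x y)^n ∈ x^n y^n S`. -/
lemma collect (S : Set G) (x y : G) (h1 : (1 : G) ∈ S) (hm : ∀ a ∈ S, ∀ b ∈ S, a * b ∈ S)
    (hx : ∀ a ∈ S, x⁻¹ * a * x ∈ S) (hy : ∀ a ∈ S, y⁻¹ * a * y ∈ S)
    (hs : y⁻¹ * x⁻¹ * y * x ∈ S) (n : ℕ) : ∃ s ∈ S, (x * y) ^ n = x ^ n * y ^ n * s := by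
  have h2 : ∀ k : ℕ, ∃ s ∈ S, y ^ k * x = x * y ^ k * s := by
    intro k
    induction k with
    | zero => exact ⟨1, h1, by simp⟩
    | succ k ih =>
      obtain ⟨s, hs', e⟩ := ih
      refine ⟨(y⁻¹ * s * y) * (y⁻¹ * x⁻¹ * y * x), hm _ (hy _ hs') _ hs, ?_⟩
      have : y ^ (k+1) * x = (y ^ k * x) * (y * (y⁻¹ * x⁻¹ * y * x)) := by
        rw [pow_succ]; group
      rw [this, e, pow_succ]; group
  induction n with
  | zero => exact ⟨1, h1, by simp⟩
  | succ n ih =>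
    obtain ⟨s, hs', e⟩ := ih
    obtain ⟨t, ht, e2⟩ := h2 n
    refine ⟨(y⁻¹ * t * y) * (y⁻¹ * (x⁻¹ * s * x) * y), hm _ (hy _ ht) _ (hy _ (hx _ hs')), ?_⟩
    have : (x * y) ^ (n+1) = x ^ n * (y ^ n * x) * (x⁻¹ * s * x) * y := by
      rw [pow_succ, e]; group
    rw [this, e2, pow_succ, pow_succ]; group

/-- closure of `QQ P` for pairs whose images in `G ⧸ H` generate a soluble group -/
lemma closed_of_soluble [H.Normal] (hP : IsInvCone H P)
    (htf : ∀ g : G, ∀ n : ℕ, 1 ≤ n → g ^ n = 1 → g = 1)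
    (hper : ∀ g : G, ∃ n : ℕ, 1 ≤ n ∧ g ^ n ∈ H) (L : Subgroup (G ⧸ H)) (hL : Group.IsSolvable L)
    {a b : G} (ha : a ∈ QQ P) (hb : b ∈ QQ P) (haL : (a : G ⧸ H) ∈ L) (hbL : (b : G ⧸ H) ∈ L) :
    a * b ∈ QQ P := by
  obtain ⟨s, hs⟩ := hL.solvable
  let D : ℕ → Subgroup G := fun i => ((derivedSeries L i).map L.subtype).comap (QuotientGroup.mk' H)
  have hD0 : ∀ g : G, (g : G ⧸ H) ∈ L → g ∈ D 0 := by
    intro g hg
    simp only [D, Subgroup.mem_comap, QuotientGroup.mk'_apply, Subgroup.mem_map, derivedSeries_zero,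
      Subgroup.mem_top, true_and]
    exact ⟨⟨_, hg⟩, rfl⟩
  have hH : ∀ i, H ≤ D i := by
    intro i h hh
    simp only [D, Subgroup.mem_comap, QuotientGroup.mk'_apply]
    rw [(QuotientGroup.eq_one_iff h).mpr hh]
    exact Subgroup.one_mem _
  have hDs : D s ≤ H := by
    intro g hg
    simp only [D, Subgroup.mem_comap, QuotientGroup.mk'_apply, hs, Subgroup.map_bot,
      Subgroup.mem_bot] at hg
    exact (QuotientGroup.eq_one_iff g).mp hg
  have hanti : ∀ i j, i ≤ j → D j ≤ D i := by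
    intro i j hij
    exact Subgroup.comap_mono (Subgroup.map_mono (derivedSeries_antitone L hij))
  have hcomm : ∀ i x y, x ∈ D i → y ∈ D i → y⁻¹ * x⁻¹ * y * x ∈ D (i+1) := by
    intro i x y hx hy
    simp only [D, Subgroup.mem_comap, QuotientGroup.mk'_apply, Subgroup.mem_map] at hx hy ⊢
    obtain ⟨x', hx', ex⟩ := hx
    obtain ⟨y', hy', ey⟩ := hy
    refine ⟨y'⁻¹ * x'⁻¹ * y' * x', ?_, ?_⟩
    · rw [derivedSeries_succ]
      have := Subgroup.commutator_mem_commutator ((derivedSeries L i).inv_mem hy')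
        ((derivedSeries L i).inv_mem hx')
      simpa [commutatorElement_def] using this
    · simp only [map_mul, map_inv, ex, ey, QuotientGroup.mk_mul, QuotientGroup.mk_inv]
  have hconj : ∀ i x g, x ∈ D 0 → g ∈ D i → x⁻¹ * g * x ∈ D i := by
    intro i x g hx hg
    simp only [D, Subgroup.mem_comap, QuotientGroup.mk'_apply, Subgroup.mem_map] at hx hg ⊢
    obtain ⟨x', _, ex⟩ := hx
    obtain ⟨g', hg', eg⟩ := hg
    refine ⟨x'⁻¹ * g' * x', ?_, ?_⟩
    · have := (derivedSeries_normal L i).conj_mem g' hg' x'⁻¹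
      simpa using this
    · simp only [map_mul, map_inv, ex, eg, QuotientGroup.mk_mul, QuotientGroup.mk_inv]
  have key : ∀ j, j ≤ s → ∀ x ∈ D (s - j), ∀ y ∈ D (s - j), x ∈ QQ P → y ∈ QQ P →
      x * y ∈ QQ P := by
    intro j
    induction j with
    | zero =>
      intro _ x hx y hy hxQ hyQ
      have hx' := hDs hx
      have hy' := hDs hy
      rw [QQ_H hP hx'] at hxQ
      rw [QQ_H hP hy'] at hyQ
      exact QQ_P hP (hP.mul _ hxQ _ hyQ)
    | succ j ih =>
      intro hj x hx y hy hxQ hyQ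
      have ih' := ih (by omega)
      have hsj : s - j = (s - (j+1)) + 1 := by omega
      set i := s - (j+1) with hi
      rw [hsj] at ih'
      -- general step
      have step : ∀ x y, x ∈ D i → y ∈ D i → x ∈ QQ P → y ∈ QQ P →
          (y⁻¹ * x⁻¹ * y * x ∈ QQ P ∨ y⁻¹ * x⁻¹ * y * x = 1) → x * y ∈ QQ P := by
        intro x y hx hy hxQ hyQ hc
        let S : Set G := {g | g = 1 ∨ (g ∈ D (i+1) ∧ g ∈ QQ P)}
        have hx0 := hanti 0 i (Nat.zero_le _) hx
        have hy0 := hanti 0 i (Nat.zero_le _) hy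
        have hSconj : ∀ z ∈ D 0, ∀ g ∈ S, z⁻¹ * g * z ∈ S := by
          intro z hz g hg
          rcases hg with rfl | ⟨h1, h2⟩
          · left; simp
          · right
            refine ⟨hconj _ _ _ hz h1, ?_⟩
            have := QQ_conj hP h2 z⁻¹
            simpa using this
        have hSmul : ∀ g ∈ S, ∀ h ∈ S, g * h ∈ S := by
          intro g hg h hh
          rcases hg with rfl | ⟨h1, h2⟩
          · simpa using hh
          · rcases hh with rfl | ⟨h3, h4⟩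
            · rw [mul_one]; exact Or.inr ⟨h1, h2⟩
            · exact Or.inr ⟨(D (i+1)).mul_mem h1 h3, ih' _ h1 _ h3 h2 h4⟩
        have hcS : y⁻¹ * x⁻¹ * y * x ∈ S := by
          rcases hc with h | h
          · exact Or.inr ⟨hcomm i x y hx hy, h⟩
          · exact Or.inl h
        obtain ⟨n, hn, hxn⟩ := hxQ
        obtain ⟨m, hm, hym⟩ := hyQ
        have hN : 1 ≤ n * m := Nat.one_le_iff_ne_zero.mpr (by positivity)
        obtain ⟨t, ht, e⟩ := collect S x y (Or.inl rfl) hSmul (hSconj x hx0) (hSconj y hy0) hcS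
          (n * m)
        have hx' : x ^ (n * m) ∈ P := by rw [pow_mul]; exact P_pow hP hxn hm
        have hy' : y ^ (n * m) ∈ P := by rw [mul_comm, pow_mul]; exact P_pow hP hym hn
        have hxy := hP.mul _ hx' _ hy'
        have hxyS : x ^ (n * m) * y ^ (n * m) ∈ D (i+1) := hH _ (hP.sub hxy)
        have hres : (x * y) ^ (n * m) ∈ QQ P := by
          rw [e]
          rcases ht with rfl | ⟨h1, h2⟩
          · rw [mul_one]; exact QQ_P hP hxy
          · exact ih' _ hxyS _ h1 (QQ_P hP hxy) h2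
        exact QQ_of_pow hN hres
      by_cases hc1 : y⁻¹ * x⁻¹ * y * x = 1
      · exact step x y hx hy hxQ hyQ (Or.inr hc1)
      · rcases QQ_tot hP htf hper hc1 with h | h
        · exact step x y hx hy hxQ hyQ (Or.inl h)
        · have h' : x⁻¹ * y⁻¹ * x * y ∈ QQ P := by
            have e : (y⁻¹ * x⁻¹ * y * x)⁻¹ = x⁻¹ * y⁻¹ * x * y := by group
            rwa [e] at h
          have := step y x hy hx hyQ hxQ (Or.inl h')
          have h2 := QQ_conj hP this x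
          have e : x * (y * x) * x⁻¹ = x * y := by group
          rwa [e] at h2
  have := key s le_rfl a (by simpa using hD0 a haL) b (by simpa using hD0 b hbL) ha hb
  exact this

end basic

section engel
variable {X : Type} [Group X]

/-- the map `z ↦ [z, y]` -/
def ec (y : X) (z : X) : X := z⁻¹ * y⁻¹ * z * y

lemma ec_one (y : X) : ec y 1 = 1 := by simp [ec]

lemma ec_iter_one (y : X) (n : ℕ) : (ec y)^[n] 1 = 1 := by
  induction n with
  | zero => rfl
  | succ n ih => rw [Function.iterate_succ_apply, ec_one, ih]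

/-- In a torsion-free Engel group, centralisers are isolated. -/
lemma engel_isolated (htf : ∀ g : X, ∀ n : ℕ, 1 ≤ n → g ^ n = 1 → g = 1)
    (hE : ∀ x y : X, ∃ n : ℕ, (ec y)^[n] x = 1) (x y : X) (n : ℕ) (hn : 1 ≤ n)
    (h : x * y ^ n = y ^ n * x) : x * y = y * x := by
  obtain ⟨m, hm⟩ := hE x y
  induction m generalizing x with
  | zero =>
    simp only [Function.iterate_zero, id_eq] at hm
    rw [hm]; simp
  | succ m ih =>
    rw [Function.iterate_succ_apply] at hm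
    have hc : Commute x (y ^ n) := h
    have hcy : Commute y (y ^ n) := (Commute.refl y).pow_right n
    have hc1 : Commute (ec y x) (y ^ n) := by
      unfold ec
      exact ((hc.inv_left.mul_left hcy.inv_left).mul_left hc).mul_left hcy
    have h1 := ih (ec y x) hc1 hm
    -- y⁻¹ x y = x * ec y x
    have h2 : ∀ k : ℕ, (y ^ k)⁻¹ * x * y ^ k = x * (ec y x) ^ k := by
      intro k
      induction k with
      | zero => simp
      | succ k ihk =>
        have hc2 : Commute (ec y x) y := h1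
        have hc3 : Commute ((ec y x) ^ k) y := hc2.pow_left k
        calc (y ^ (k+1))⁻¹ * x * y ^ (k+1) = y⁻¹ * ((y ^ k)⁻¹ * x * y ^ k) * y := by
              rw [pow_succ]; group
          _ = y⁻¹ * (x * (ec y x) ^ k) * y := by rw [ihk]
          _ = y⁻¹ * x * ((ec y x) ^ k * y) := by group
          _ = y⁻¹ * x * (y * (ec y x) ^ k) := by rw [hc3.eq]
          _ = x * (ec y x) * (ec y x) ^ k := by unfold ec; group
          _ = x * (ec y x) ^ (k+1) := by rw [pow_succ', mul_assoc]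
    have h3 := h2 n
    have h4 : (y ^ n)⁻¹ * x * y ^ n = x := by
      rw [mul_assoc, h]; group
    rw [h4] at h3
    have h5 : (ec y x) ^ n = 1 := by
      have : x * 1 = x * (ec y x) ^ n := by rw [mul_one]; exact h3
      exact (mul_left_cancel this).symm
    have h6 := htf _ n hn h5
    unfold ec at h6
    have : y⁻¹ * x * y = x := by
      calc y⁻¹ * x * y = x * (x⁻¹ * y⁻¹ * x * y) := by group
        _ = x := by rw [h6, mul_one]
    calc x * y = y * (y⁻¹ * x * y) := by group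
      _ = y * x := by rw [this]

/-- unique extraction of roots -/
def Rg (X : Type) [Group X] : Prop := ∀ x y : X, ∀ n : ℕ, 1 ≤ n → x ^ n = y ^ n → x = y

lemma Rg_isolated (hR : Rg X) (x y : X) (n : ℕ) (hn : 1 ≤ n) (h : x * y ^ n = y ^ n * x) :
    x * y = y * x := by
  have h1 : (x * y * x⁻¹) ^ n = y ^ n := by
    rw [conj_pow, h]; group
  have h2 := hR _ _ n hn h1
  calc x * y = (x * y * x⁻¹) * x := by group
    _ = y * x := by rw [h2]

lemma Rg_of_engel (htf : ∀ g : X, ∀ n : ℕ, 1 ≤ n → g ^ n = 1 → g = 1)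
    (hE : ∀ x y : X, ∃ n : ℕ, (ec y)^[n] x = 1) : Rg X := by
  intro x y n hn h
  have h1 : x * y ^ n = y ^ n * x := by
    rw [← h]; exact ((Commute.refl x).pow_right n).eq
  have h2 : Commute x y := engel_isolated htf hE x y n hn h1
  have h3 : (x * y⁻¹) ^ n = 1 := by
    rw [h2.inv_right.mul_pow, h, inv_pow, mul_inv_cancel]
  have := htf _ n hn h3
  exact mul_inv_eq_one.mp this

lemma Rg_center (hR : Rg X) (x y : X) (n : ℕ) (hn : 1 ≤ n)
    (hz : ∀ g : X, Commute (x ^ n * (y ^ n)⁻¹) g) (g : X) : Commute (x * y⁻¹) g := by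
  have h1 : Commute x (y ^ n) := by
    have e : y ^ n = (x ^ n * (y ^ n)⁻¹)⁻¹ * x ^ n := by group
    rw [e]
    exact ((hz x).symm.inv_right).mul_right ((Commute.refl x).pow_right n)
  have h2 : Commute x y := Rg_isolated hR x y n hn h1
  have h3 : (x * y⁻¹) ^ n = x ^ n * (y ^ n)⁻¹ := by
    rw [h2.inv_right.mul_pow, inv_pow]
  have h4 : (g * (x * y⁻¹) * g⁻¹) ^ n = (x * y⁻¹) ^ n := by
    rw [conj_pow, h3]
    have := (hz g).eq
    rw [← this]; group
  have h5 := hR _ _ n hn h4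
  have h6 : g * (x * y⁻¹) = (x * y⁻¹) * g := by
    calc g * (x * y⁻¹) = (g * (x * y⁻¹) * g⁻¹) * g := by group
      _ = (x * y⁻¹) * g := by rw [h5]
  exact h6.symm

lemma mem_ucs_succ (i : ℕ) (x : X) : x ∈ Subgroup.upperCentralSeries X (i+1) ↔
    ∀ g : X, Commute (x : X ⧸ Subgroup.upperCentralSeries X i) (g : X ⧸ Subgroup.upperCentralSeries X i) := by
  rw [Subgroup.mem_upperCentralSeries_succ_iff]
  refine forall_congr' (fun g => ?_)
  rw [← QuotientGroup.eq_one_iff, commutatorElement_def]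
  simp only [QuotientGroup.mk_mul, QuotientGroup.mk_inv]
  rw [← commutatorElement_def, commutatorElement_eq_one_iff_commute]

lemma Rg_quot (hR : Rg X) (i : ℕ) : Rg (X ⧸ Subgroup.upperCentralSeries X i) := by
  induction i with
  | zero =>
    intro x y n hn h
    obtain ⟨x, rfl⟩ := QuotientGroup.mk_surjective x
    obtain ⟨y, rfl⟩ := QuotientGroup.mk_surjective y
    rw [← QuotientGroup.mk_pow, ← QuotientGroup.mk_pow, QuotientGroup.eq] at h
    have h1 : (x ^ n)⁻¹ * y ^ n = 1 := by simpa using h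
    have h2 : x ^ n = y ^ n := (inv_mul_eq_one.mp h1)
    rw [hR x y n hn h2]
  | succ i ih =>
    intro x y n hn h
    obtain ⟨x, rfl⟩ := QuotientGroup.mk_surjective x
    obtain ⟨y, rfl⟩ := QuotientGroup.mk_surjective y
    rw [← QuotientGroup.mk_pow, ← QuotientGroup.mk_pow] at h
    have h1 : x ^ n * (y ^ n)⁻¹ ∈ Subgroup.upperCentralSeries X (i+1) := by
      rw [← QuotientGroup.eq_one_iff]
      simp only [QuotientGroup.mk_mul, QuotientGroup.mk_inv]
      rw [h, mul_inv_cancel]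
    rw [mem_ucs_succ] at h1
    have h2 : ∀ g : X ⧸ Subgroup.upperCentralSeries X i,
        Commute ((x : X ⧸ Subgroup.upperCentralSeries X i) ^ n * ((y : X ⧸ Subgroup.upperCentralSeries X i) ^ n)⁻¹) g := by
      intro g
      obtain ⟨g, rfl⟩ := QuotientGroup.mk_surjective g
      have := h1 g
      simpa only [QuotientGroup.mk_mul, QuotientGroup.mk_inv, QuotientGroup.mk_pow] using this
    have h3 : x * y⁻¹ ∈ Subgroup.upperCentralSeries X (i+1) := by
      rw [mem_ucs_succ]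
      intro g
      have := Rg_center ih _ _ n hn h2 (g : X ⧸ Subgroup.upperCentralSeries X i)
      simpa only [QuotientGroup.mk_mul, QuotientGroup.mk_inv] using this
    have h4 := (QuotientGroup.eq_one_iff _).mpr h3
    simp only [QuotientGroup.mk_mul, QuotientGroup.mk_inv] at h4
    exact mul_inv_eq_one.mp h4

lemma ucs_le (hR : Rg X) (H : Subgroup X) (hper : ∀ g : X, ∃ n : ℕ, 1 ≤ n ∧ g ^ n ∈ H) (i : ℕ) :
    ∀ h : H, h ∈ Subgroup.upperCentralSeries H i → (h : X) ∈ Subgroup.upperCentralSeries X i := by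
  induction i with
  | zero =>
    intro h hh
    simpa using hh
  | succ i ih =>
    intro h hh
    rw [mem_ucs_succ]
    intro g
    obtain ⟨n, hn, hg⟩ := hper g
    have h1 := Subgroup.mem_upperCentralSeries_succ_iff.mp hh ⟨g ^ n, hg⟩
    have h2 := ih _ h1
    have h3 : Commute (h : X ⧸ Subgroup.upperCentralSeries X i) ((g : X ⧸ Subgroup.upperCentralSeries X i) ^ n) := by
      rw [← commutatorElement_eq_one_iff_commute, commutatorElement_def]
      have h4 := (QuotientGroup.eq_one_iff _).mpr h2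
      rw [commutatorElement_def] at h4
      simpa only [QuotientGroup.mk_mul, QuotientGroup.mk_inv, QuotientGroup.mk_pow,
        Subgroup.coe_mul, Subgroup.coe_inv] using h4
    exact Rg_isolated (Rg_quot hR i) _ _ n hn h3.eq

lemma ec_ucs (y : X) (i : ℕ) : ∀ x : X, x ∈ Subgroup.upperCentralSeries X i → (ec y)^[i] x = 1 := by
  induction i with
  | zero =>
    intro x hx
    simpa using hx
  | succ i ih =>
    intro x hx
    rw [Function.iterate_succ_apply]
    apply ih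
    have h1 := Subgroup.mem_upperCentralSeries_succ_iff.mp (Subgroup.inv_mem _ hx) y⁻¹
    rw [commutatorElement_def] at h1
    simpa [ec] using h1

lemma Rg_of_cone (Q : Set X) (hmul : ∀ a ∈ Q, ∀ b ∈ Q, a * b ∈ Q) (h1 : (1 : X) ∉ Q)
    (htot : ∀ g : X, g ≠ 1 → g ∈ Q ∨ g⁻¹ ∈ Q) (hconj : ∀ g : X, ∀ a ∈ Q, g * a * g⁻¹ ∈ Q) :
    Rg X := by
  have key : ∀ x y : X, x⁻¹ * y ∈ Q → ∀ n : ℕ, (x ^ (n+1))⁻¹ * y ^ (n+1) ∈ Q := by
    intro x y h n
    induction n with
    | zero => simpa using h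
    | succ n ih =>
      have e : (x ^ (n+1+1))⁻¹ * y ^ (n+1+1)
          = ((x ^ (n+1))⁻¹ * (x⁻¹ * y) * ((x ^ (n+1))⁻¹)⁻¹) * ((x ^ (n+1))⁻¹ * y ^ (n+1)) := by
        rw [pow_succ' x (n+1), pow_succ' y (n+1)]; group
      rw [e]
      exact hmul _ (hconj _ _ h) _ ih
  intro x y n hn h
  obtain ⟨n, rfl⟩ : ∃ k, n = k + 1 := ⟨n - 1, by omega⟩
  by_contra hne
  have h2 : x⁻¹ * y ≠ 1 := fun h' => hne (inv_mul_eq_one.mp h')
  rcases htot _ h2 with h3 | h3
  · have := key x y h3 n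
    rw [h, inv_mul_cancel] at this
    exact h1 this
  · have h4 : y⁻¹ * x ∈ Q := by
      have e : (x⁻¹ * y)⁻¹ = y⁻¹ * x := by group
      rwa [e] at h3
    have := key y x h4 n
    rw [h, inv_mul_cancel] at this
    exact h1 this

end engel

section nilp
variable {G : Type} [Group G] {H : Subgroup G} {P : Set G}

/-- `H` nilpotent, `G ⧸ H` periodic Engel. -/
theorem nilpotent_case [H.Normal] (hP : IsInvCone H P)
    (htf : ∀ g : G, ∀ n : ℕ, 1 ≤ n → g ^ n = 1 → g = 1)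
    (hper : ∀ g : G, ∃ n : ℕ, 1 ≤ n ∧ g ^ n ∈ H)
    (hEng : ∀ x y : G, ∃ n : ℕ, (ec y)^[n] x ∈ H) (hnil : Group.IsNilpotent H) :
    Extends H P := by
  obtain ⟨c, hc⟩ := hnil.nilpotent
  -- step 1: elements of `H` are uniformly left Engel
  have step1 : ∀ y : G, ∀ h ∈ H, (ec y)^[c] h = 1 := by
    intro y h hh
    set K : Subgroup G := H ⊔ Subgroup.zpowers y with hK
    have hHK : H ≤ K := le_sup_left
    have hKL : ∀ x ∈ K, (x : G ⧸ H) ∈ Subgroup.zpowers (y : G ⧸ H) := by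
      have : K ≤ (Subgroup.zpowers (y : G ⧸ H)).comap (QuotientGroup.mk' H) := by
        rw [hK, sup_le_iff]
        constructor
        · intro x hx
          rw [Subgroup.mem_comap, QuotientGroup.mk'_apply, (QuotientGroup.eq_one_iff x).mpr hx]
          exact Subgroup.one_mem _
        · rw [Subgroup.zpowers_le, Subgroup.mem_comap]
          exact Subgroup.mem_zpowers _
      intro x hx
      exact this hx
    have hsol : Group.IsSolvable (Subgroup.zpowers (y : G ⧸ H)) := by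
      refine Group.isSolvable_of_comm ?_
      rintro ⟨a, i, rfl⟩ ⟨b, j, rfl⟩
      exact Subtype.ext (zpow_mul_comm _ _ _)
    have hR : Rg K := by
      refine Rg_of_cone {x : K | (x : G) ∈ QQ P} ?_ ?_ ?_ ?_
      · intro a ha b hb
        exact closed_of_soluble hP htf hper _ hsol ha hb (hKL _ a.2) (hKL _ b.2)
      · intro h1
        exact QQ_one hP (by simpa using h1)
      · intro g hg
        have : (g : G) ≠ 1 := fun h' => hg (Subtype.ext h')
        exact QQ_tot hP htf hper this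
      · intro g a ha
        exact QQ_conj hP ha (g : G)
    set H' : Subgroup K := H.subgroupOf K with hH'
    have hper' : ∀ g : K, ∃ n : ℕ, 1 ≤ n ∧ g ^ n ∈ H' := by
      intro g
      obtain ⟨n, hn, h1⟩ := hper (g : G)
      exact ⟨n, hn, by rw [hH', Subgroup.mem_subgroupOf]; simpa using h1⟩
    have hc' : Subgroup.upperCentralSeries H' c = ⊤ := by
      have := Subgroup.comap_upperCentralSeries (Subgroup.subgroupOfEquivOfLe hHK) c
      rw [← this, hc]
      rfl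
    have hmem : (⟨h, hHK hh⟩ : K) ∈ H' := by
      rw [hH', Subgroup.mem_subgroupOf]; exact hh
    have h2 := ucs_le hR H' hper' c ⟨⟨h, hHK hh⟩, hmem⟩ (by rw [hc']; exact Subgroup.mem_top _)
    have hy : y ∈ K := (le_sup_right : Subgroup.zpowers y ≤ K) (Subgroup.mem_zpowers y)
    have h3 := ec_ucs (⟨y, hy⟩ : K) c _ h2
    have h4 : ∀ n : ℕ, ∀ x : K, (((ec (⟨y, hy⟩ : K))^[n] x : K) : G) = (ec y)^[n] (x : G) := by
      intro n
      induction n with
      | zero => intro x; rfl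
      | succ n ih => intro x; rw [Function.iterate_succ_apply, Function.iterate_succ_apply, ih]; rfl
    have h5 := h4 c ⟨h, hHK hh⟩
    have h6 : (ec y)^[c] h = (((ec (⟨y, hy⟩ : K))^[c] ⟨h, hHK hh⟩ : K) : G) := h5.symm
    rw [h6]
    have h7 : (ec (⟨y, hy⟩ : K))^[c] ⟨h, hHK hh⟩ = 1 := h3
    rw [h7]; rfl
  have hEG : ∀ x y : G, ∃ n : ℕ, (ec y)^[n] x = 1 := by
    intro x y
    obtain ⟨n, hn⟩ := hEng x y
    refine ⟨c + n, ?_⟩
    rw [Function.iterate_add_apply]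
    exact step1 y _ hn
  have hRG : Rg G := Rg_of_engel htf hEG
  have hHZ : ∀ h ∈ H, h ∈ Subgroup.upperCentralSeries G c := by
    intro h hh
    exact ucs_le hRG H hper c ⟨h, hh⟩ (by rw [hc]; exact Subgroup.mem_top _)
  have htop : Subgroup.upperCentralSeries G c = ⊤ := by
    rw [eq_top_iff]
    intro g _
    obtain ⟨n, hn, hg⟩ := hper g
    have h1 := (QuotientGroup.eq_one_iff (N := Subgroup.upperCentralSeries G c) (g ^ n)).mpr
      (hHZ _ hg)
    have h2 := Rg_quot hRG c (g : G ⧸ Subgroup.upperCentralSeries G c) 1 n hn (by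
      rw [one_pow, ← QuotientGroup.mk_pow]; exact h1)
    exact (QuotientGroup.eq_one_iff g).mp h2
  have hnilG : Group.IsNilpotent G := ⟨⟨c, htop⟩⟩
  have hsolG : Group.IsSolvable G := inferInstance
  refine extends_of_closed hP htf hper ?_
  intro a ha b hb
  exact closed_of_soluble hP htf hper ⊤ inferInstance ha hb (Subgroup.mem_top _)
    (Subgroup.mem_top _)

end nilp

section holder
variable {Y : Type} [Group Y] (R : Set Y)

/-- Hölder: an archimedean bi-ordered group is abelian. -/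
theorem holder (hmul : ∀ a ∈ R, ∀ b ∈ R, a * b ∈ R) (h1 : (1 : Y) ∉ R)
    (htot : ∀ g : Y, g ≠ 1 → g ∈ R ∨ g⁻¹ ∈ R) (hconj : ∀ g : Y, ∀ a ∈ R, g * a * g⁻¹ ∈ R)
    (harch : ∀ w ∈ R, ∀ z : Y, ∃ k : ℕ, z⁻¹ * w ^ k ∈ R) (x y : Y) : x * y = y * x := by
  have hconj' : ∀ g : Y, ∀ a ∈ R, g⁻¹ * a * g ∈ R := by
    intro g a ha
    have := hconj g⁻¹ a ha
    simpa using this
  have hni : ∀ a ∈ R, a⁻¹ ∉ R := by
    intro a ha h
    have := hmul _ ha _ h
    rw [mul_inv_cancel] at this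
    exact h1 this
  -- the relation `≤`
  let le : Y → Y → Prop := fun u v => u⁻¹ * v ∈ R ∨ u = v
  have lt_le : ∀ u v, u⁻¹ * v ∈ R → le u v := fun u v h => Or.inl h
  have mul_mono : ∀ u u' v v', le u u' → le v v' → le (u * v) (u' * v') := by
    intro u u' v v' hu hv
    rcases hu with hu | rfl
    · rcases hv with hv | rfl
      · left
        have e : (u * v)⁻¹ * (u' * v') = (v⁻¹ * (u⁻¹ * u') * v) * (v⁻¹ * v') := by group
        rw [e]; exact hmul _ (hconj' v _ hu) _ hv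
      · left
        have e : (u * v)⁻¹ * (u' * v) = v⁻¹ * (u⁻¹ * u') * v := by group
        rw [e]; exact hconj' v _ hu
    · rcases hv with hv | rfl
      · left
        have e : (u * v)⁻¹ * (u * v') = v⁻¹ * v' := by group
        rw [e]; exact hv
      · exact Or.inr rfl
  have mul_smono : ∀ u u' v v', le u u' → v⁻¹ * v' ∈ R → (u * v)⁻¹ * (u' * v') ∈ R := by
    intro u u' v v' hu hv
    rcases hu with hu | rfl
    · have e : (u * v)⁻¹ * (u' * v') = (v⁻¹ * (u⁻¹ * u') * v) * (v⁻¹ * v') := by group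
      rw [e]; exact hmul _ (hconj' v _ hu) _ hv
    · have e : (u * v)⁻¹ * (u * v') = v⁻¹ * v' := by group
      rw [e]; exact hv
  have le_inv : ∀ u v, le u v → le v⁻¹ u⁻¹ := by
    intro u v h
    rcases h with h | rfl
    · left
      have e : (v⁻¹)⁻¹ * u⁻¹ = u * (u⁻¹ * v) * u⁻¹ := by group
      rw [e]; exact hconj _ _ h
    · exact Or.inr rfl
  have hpw : ∀ w ∈ R, ∀ n : ℕ, w ^ (n+1) ∈ R := by
    intro w hw n
    induction n with
    | zero => simpa using hw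
    | succ n ih => rw [pow_succ]; exact hmul _ ih _ hw
  -- floor
  have hfloor : ∀ w ∈ R, ∀ x : Y, ∃ m : ℤ, le (w ^ m) x ∧ x⁻¹ * w ^ (m+1) ∈ R := by
    intro w hw x
    obtain ⟨k, hk⟩ := harch w hw x
    obtain ⟨l, hl⟩ := harch w hw x⁻¹
    obtain ⟨m, hm1, hm2⟩ := Int.exists_greatest_of_bdd (P := fun m : ℤ => le (w ^ m) x)
      ⟨k, fun z hz => by
        by_contra hlt
        push Not at hlt
        obtain ⟨j, hj⟩ : ∃ j : ℕ, z = k + (j + 1 : ℕ) := ⟨(z - k - 1).toNat, by push_cast; omega⟩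
        have h3 : (w ^ z)⁻¹ * w ^ (k : ℤ) ∈ R := by
          rcases hz with hz | hz
          · have e : (w ^ z)⁻¹ * w ^ (k : ℤ) = ((w ^ z)⁻¹ * x) * (x⁻¹ * w ^ k) := by
              rw [zpow_natCast]; group
            rw [e]; exact hmul _ hz _ hk
          · rw [hz, zpow_natCast]; exact hk
        have h4 : ((w ^ z)⁻¹ * w ^ (k : ℤ))⁻¹ = w ^ (j+1) := by
          rw [hj, ← zpow_neg, ← zpow_add, ← zpow_neg, ← zpow_natCast w (j+1)]
          congr 1; push_cast; ring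
        exact hni _ h3 (by rw [h4]; exact hpw w hw j)⟩
      ⟨-(l : ℤ), by
        left
        have e : (w ^ (-(l : ℤ)))⁻¹ * x = w ^ l * x := by
          rw [zpow_neg, inv_inv, zpow_natCast]
        rw [e]
        have := hconj x⁻¹ _ hl
        have e2 : x⁻¹ * ((x⁻¹)⁻¹ * w ^ l) * (x⁻¹)⁻¹ = w ^ l * x := by group
        rwa [e2] at this⟩
    refine ⟨m, hm1, ?_⟩
    have h3 : ¬ le (w ^ (m+1)) x := fun h => by have := hm2 _ h; omega
    have h4 : x⁻¹ * w ^ (m+1) ≠ 1 := fun h => h3 (Or.inr (inv_mul_eq_one.mp h).symm)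
    rcases htot _ h4 with h5 | h5
    · exact h5
    · exfalso
      apply h3
      left
      have e : (x⁻¹ * w ^ (m+1))⁻¹ = (w ^ (m+1))⁻¹ * x := by group
      rwa [e] at h5
  -- main argument
  have main : ∀ x y : Y, x⁻¹ * y⁻¹ * x * y ∈ R → False := by
    intro x y hz
    set z := x⁻¹ * y⁻¹ * x * y with hzdef
    by_cases hcase : ∃ w ∈ R, le (w ^ 2) z
    · obtain ⟨w, hw, hwz⟩ := hcase
      obtain ⟨m, hm1, hm2⟩ := hfloor w hw x
      obtain ⟨k, hk1, hk2⟩ := hfloor w hw y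
      have h3 : z⁻¹ * w ^ 2 ∈ R := by
        have h4 := mul_smono (x⁻¹ * y⁻¹ * x) ((w ^ m)⁻¹ * (w ^ k)⁻¹ * w ^ (m+1)) y (w ^ (k+1))
          (mul_mono _ _ _ _ (mul_mono _ _ _ _ (le_inv _ _ hm1) (le_inv _ _ hk1)) (lt_le _ _ hm2)) hk2
        have e : (w ^ m)⁻¹ * (w ^ k)⁻¹ * w ^ (m+1) * w ^ (k+1) = w ^ 2 := by
          rw [← zpow_neg, ← zpow_neg, ← zpow_add, ← zpow_add, ← zpow_add, ← zpow_natCast w 2]
          congr 1; push_cast; ring
        rw [e] at h4
        exact h4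
      rcases hwz with h5 | h5
      · have e : (z⁻¹ * w ^ 2)⁻¹ = (w ^ 2)⁻¹ * z := by group
        exact hni _ h3 (by rw [e]; exact h5)
      · rw [h5, inv_mul_cancel] at h3
        exact h1 h3
    · push Not at hcase
      have hlt : ∀ w ∈ R, z⁻¹ * w ^ 2 ∈ R := by
        intro w hw
        have h3 := hcase w hw
        have h4 : z⁻¹ * w ^ 2 ≠ 1 := fun h => h3 (Or.inr (inv_mul_eq_one.mp h).symm)
        rcases htot _ h4 with h5 | h5
        · exact h5
        · exfalso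
          apply h3
          left
          have e : (z⁻¹ * w ^ 2)⁻¹ = (w ^ 2)⁻¹ * z := by group
          rwa [e] at h5
      have hcyc : ∀ u : Y, ∃ m : ℤ, z ^ m = u := by
        intro u
        obtain ⟨m, hm1, hm2⟩ := hfloor z hz u
        refine ⟨m, ?_⟩
        rcases hm1 with hr | hr
        · exfalso
          set r := (z ^ m)⁻¹ * u with hrdef
          set t := u⁻¹ * z ^ (m+1) with htdef
          have hrt : r * t = z := by
            rw [hrdef, htdef, zpow_add_one]; group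
          by_cases hrt1 : r⁻¹ * t = 1
          · have : r = t := inv_mul_eq_one.mp hrt1
            have h5 := hlt r hr
            have e : z⁻¹ * r ^ 2 = 1 := by rw [← hrt, ← this, pow_two]; group
            rw [e] at h5
            exact h1 h5
          · rcases htot _ hrt1 with h5 | h5
            · have h6 := hlt r hr
              have e : (z⁻¹ * r ^ 2)⁻¹ = r⁻¹ * t := by rw [← hrt, pow_two]; group
              exact hni _ h6 (by rw [e]; exact h5)
            · have h5' : t⁻¹ * r ∈ R := by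
                have e : (r⁻¹ * t)⁻¹ = t⁻¹ * r := by group
                rwa [e] at h5
              have h6 := hlt t hm2
              have e : (z⁻¹ * t ^ 2)⁻¹ = t⁻¹ * (t⁻¹ * r) * t := by rw [← hrt, pow_two]; group
              exact hni _ h6 (by rw [e]; exact hconj' t _ h5')
        · exact hr
      obtain ⟨i, hi⟩ := hcyc x
      obtain ⟨j, hj⟩ := hcyc y
      have hc : x * y = y * x := by
        rw [← hi, ← hj]; exact zpow_mul_comm _ _ _
      have : z = 1 := by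
        rw [hzdef]
        calc x⁻¹ * y⁻¹ * x * y = x⁻¹ * y⁻¹ * (x * y) := by group
          _ = 1 := by rw [hc]; group
      rw [this] at hz
      exact h1 hz
  by_contra hne
  have hz : x⁻¹ * y⁻¹ * x * y ≠ 1 := by
    intro h
    apply hne
    calc x * y = y * x * (x⁻¹ * y⁻¹ * x * y) := by group
      _ = y * x := by rw [h, mul_one]
  rcases htot _ hz with h | h
  · exact main x y h
  · have e : (x⁻¹ * y⁻¹ * x * y)⁻¹ = y⁻¹ * x⁻¹ * y * x := by group
    rw [e] at h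
    exact main y x h

end holder

/-- `C` is a convex subgroup of `H` for the order with positive cone `P`. -/
structure IsConvex {G : Type} [Group G] (H : Subgroup G) (P : Set G) (C : Subgroup G) : Prop where
  le : C ≤ H
  conv : ∀ x ∈ C, ∀ y ∈ P, y⁻¹ * x ∈ P → y ∈ C

section convex
variable {G : Type} [Group G] {H : Subgroup G} {P : Set G}

lemma P_conj' (hP : IsInvCone H P) (g : G) {a : G} (ha : a ∈ P) : g⁻¹ * a * g ∈ P := by
  have := hP.conj g⁻¹ _ ha
  simpa using this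

lemma pos_mul (hP : IsInvCone H P) {C : Subgroup G} (hC : IsConvex H P C) {d e : G}
    (hd : d ∈ P) (hd' : d ∉ C) (he : e ∈ P) : d * e ∉ C := by
  intro h
  apply hd'
  refine hC.conv _ h _ hd ?_
  have e1 : d⁻¹ * (d * e) = e := by group
  rw [e1]; exact he

lemma pos_mul' (hP : IsInvCone H P) {C : Subgroup G} (hC : IsConvex H P C) {d e : G}
    (hd : d ∈ P) (he : e ∈ P) (he' : e ∉ C) : d * e ∉ C := by
  intro h
  apply he'
  refine hC.conv _ h _ he ?_
  have e1 : e⁻¹ * (d * e) = e⁻¹ * d * e := by group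
  rw [e1]; exact P_conj' hP e hd

/-- order automorphisms of finite order (modulo `C`) are trivial (modulo `C`). -/
lemma tele [H.Normal] (hP : IsInvCone H P) {C : Subgroup G} (hC : IsConvex H P C) {a x : G}
    (hx : x ∈ H) (h1 : ∀ y ∈ C, a * y * a⁻¹ ∈ C) {n : ℕ} (hn : 1 ≤ n)
    (h : x⁻¹ * (a ^ n)⁻¹ * x * a ^ n ∈ C) : x⁻¹ * a⁻¹ * x * a ∈ C := by
  by_contra hd
  set d := x⁻¹ * a⁻¹ * x * a with hddef
  have hdH : d ∈ H := by
    have h2 : a⁻¹ * x * a ∈ H := by
      have := (inferInstance : H.Normal).conj_mem x hx a⁻¹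
      simpa using this
    have e : d = x⁻¹ * (a⁻¹ * x * a) := by rw [hddef]; group
    rw [e]; exact H.mul_mem (H.inv_mem hx) h2
  have hd1 : d ≠ 1 := fun h' => hd (by rw [h']; exact C.one_mem)
  have hrec : ∀ k : ℕ, x⁻¹ * (a ^ (k+1))⁻¹ * x * a ^ (k+1)
      = d * (a⁻¹ * (x⁻¹ * (a ^ k)⁻¹ * x * a ^ k) * a) := by
    intro k
    rw [hddef, pow_succ]; group
  have hnot : ∀ y, y ∉ C → a⁻¹ * y * a ∉ C := by
    intro y hy hy'
    apply hy
    have := h1 _ hy'
    have e : a * (a⁻¹ * y * a) * a⁻¹ = y := by group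
    rwa [e] at this
  rcases hP.tot d hdH hd1 with hp | hp
  · have key : ∀ k : ℕ, x⁻¹ * (a ^ (k+1))⁻¹ * x * a ^ (k+1) ∈ P ∧
        x⁻¹ * (a ^ (k+1))⁻¹ * x * a ^ (k+1) ∉ C := by
      intro k
      induction k with
      | zero => simp only [zero_add, pow_one]; exact ⟨hp, hd⟩
      | succ k ih =>
        rw [hrec (k+1)]
        have h3 := P_conj' hP a ih.1
        exact ⟨hP.mul _ hp _ h3, pos_mul hP hC hp hd h3⟩
    obtain ⟨k, rfl⟩ : ∃ k, n = k + 1 := ⟨n - 1, by omega⟩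
    exact (key k).2 h
  · have key : ∀ k : ℕ, (x⁻¹ * (a ^ (k+1))⁻¹ * x * a ^ (k+1))⁻¹ ∈ P ∧
        (x⁻¹ * (a ^ (k+1))⁻¹ * x * a ^ (k+1))⁻¹ ∉ C := by
      intro k
      induction k with
      | zero => simp only [zero_add, pow_one]; exact ⟨hp, fun h' => hd (by simpa using C.inv_mem h')⟩
      | succ k ih =>
        rw [hrec (k+1)]
        have h3 := P_conj' hP a ih.1
        have e : (d * (a⁻¹ * (x⁻¹ * (a ^ (k+1))⁻¹ * x * a ^ (k+1)) * a))⁻¹
            = (a⁻¹ * (x⁻¹ * (a ^ (k+1))⁻¹ * x * a ^ (k+1))⁻¹ * a) * d⁻¹ := by group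
        rw [e]
        exact ⟨hP.mul _ h3 _ hp, pos_mul hP hC h3 (hnot _ ih.2) hp⟩
    obtain ⟨k, rfl⟩ : ∃ k, n = k + 1 := ⟨n - 1, by omega⟩
    exact (key k).2 (C.inv_mem h)

lemma convex_root (hP : IsInvCone H P) {C : Subgroup G} (hC : IsConvex H P C) {h : G}
    (hh : h ∈ H) {j : ℕ} (hj : 1 ≤ j) (hc : h ^ j ∈ C) : h ∈ C := by
  by_contra hn
  have h1 : h ≠ 1 := fun h' => hn (by rw [h']; exact C.one_mem)
  have key : ∀ u : G, u ∈ P → u ∉ C → ∀ k : ℕ, u ^ (k+1) ∈ P ∧ u ^ (k+1) ∉ C := by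
    intro u hu hu' k
    induction k with
    | zero => simpa using ⟨hu, hu'⟩
    | succ k ih =>
      rw [pow_succ]
      exact ⟨hP.mul _ ih.1 _ hu, pos_mul hP hC ih.1 ih.2 hu⟩
  obtain ⟨k, rfl⟩ : ∃ k, j = k + 1 := ⟨j - 1, by omega⟩
  rcases hP.tot h hh h1 with h2 | h2
  · exact (key h h2 hn k).2 hc
  · have := (key h⁻¹ h2 (fun h' => hn (by simpa using C.inv_mem h')) k).2
    apply this
    rw [inv_pow]; exact C.inv_mem hc

lemma convex_chain (hP : IsInvCone H P) {C D : Subgroup G} (hC : IsConvex H P C)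
    (hD : IsConvex H P D) : C ≤ D ∨ D ≤ C := by
  by_contra hcon
  push Not at hcon
  obtain ⟨h1, h2⟩ := hcon
  obtain ⟨x, hxC, hxD⟩ := Set.not_subset.mp h1
  obtain ⟨y, hyD, hyC⟩ := Set.not_subset.mp h2
  have hx : ∃ x ∈ P, x ∈ C ∧ x ∉ D := by
    have hx1 : x ≠ 1 := fun h' => hxD (by rw [h']; exact D.one_mem)
    rcases hP.tot x (hC.le hxC) hx1 with h | h
    · exact ⟨x, h, hxC, hxD⟩
    · exact ⟨x⁻¹, h, C.inv_mem hxC, fun h' => hxD (by simpa using D.inv_mem h')⟩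
  have hy : ∃ y ∈ P, y ∈ D ∧ y ∉ C := by
    have hy1 : y ≠ 1 := fun h' => hyC (by rw [h']; exact C.one_mem)
    rcases hP.tot y (hD.le hyD) hy1 with h | h
    · exact ⟨y, h, hyD, hyC⟩
    · exact ⟨y⁻¹, h, D.inv_mem hyD, fun h' => hyC (by simpa using C.inv_mem h')⟩
  obtain ⟨x, hxP, hxC, hxD⟩ := hx
  obtain ⟨y, hyP, hyD, hyC⟩ := hy
  by_cases hxy : x⁻¹ * y = 1
  · have : x = y := inv_mul_eq_one.mp hxy
    rw [this] at hxD
    exact hxD hyD
  · rcases hP.tot _ (H.mul_mem (H.inv_mem (hC.le hxC)) (hD.le hyD)) hxy with h | h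
    · exact hxD (hD.conv y hyD x hxP h)
    · have e : (x⁻¹ * y)⁻¹ = y⁻¹ * x := by group
      rw [e] at h
      exact hyC (hC.conv x hxC y hyP h)

lemma convex_conj [H.Normal] (hP : IsInvCone H P) {C : Subgroup G} (hC : IsConvex H P C) (a : G) :
    IsConvex H P (C.map (MulAut.conj a).toMonoidHom) := by
  constructor
  · rintro _ ⟨c, hc, rfl⟩
    exact (inferInstance : H.Normal).conj_mem c (hC.le hc) a
  · rintro _ ⟨c, hc, rfl⟩ y hy h
    refine ⟨a⁻¹ * y * a, ?_, by simp [mul_assoc]⟩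
    refine hC.conv c hc _ (P_conj' hP a hy) ?_
    have := P_conj' hP a h
    have e : a⁻¹ * (y⁻¹ * ((MulAut.conj a).toMonoidHom c)) * a = (a⁻¹ * y * a)⁻¹ * c := by
      simp only [MulEquiv.toMonoidHom_eq_coe, MonoidHom.coe_coe, MulAut.conj_apply]; group
    rwa [e] at this

lemma conj_iter {C : Subgroup G} {a : G} (h : ∀ x ∈ C, a * x * a⁻¹ ∈ C) (k : ℕ) :
    ∀ x ∈ C, a ^ k * x * (a ^ k)⁻¹ ∈ C := by
  induction k with
  | zero => intro x hx; simpa using hx
  | succ k ih =>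
    intro x hx
    have e : a ^ (k+1) * x * (a ^ (k+1))⁻¹ = a * (a ^ k * x * (a ^ k)⁻¹) * a⁻¹ := by
      rw [pow_succ']; group
    rw [e]; exact h _ (ih x hx)

/-- an element with a power in the convex subgroup `C` normalises `C`. -/
lemma normalizes [H.Normal] (hP : IsInvCone H P) {C : Subgroup G} (hC : IsConvex H P C) {a : G}
    {n : ℕ} (hn : 1 ≤ n) (ha : a ^ n ∈ C) (x : G) : x ∈ C ↔ a * x * a⁻¹ ∈ C := by
  have hmem : ∀ x, x ∈ C.map (MulAut.conj a).toMonoidHom ↔ a⁻¹ * x * a ∈ C := by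
    intro x
    constructor
    · rintro ⟨c, hc, rfl⟩
      have e : a⁻¹ * ((MulAut.conj a).toMonoidHom c) * a = c := by
        simp only [MulEquiv.toMonoidHom_eq_coe, MonoidHom.coe_coe, MulAut.conj_apply]; group
      rw [e]; exact hc
    · intro h
      exact ⟨a⁻¹ * x * a, h, by simp [mul_assoc]⟩
  have h1 : (∀ x ∈ C, a * x * a⁻¹ ∈ C) ∧ (∀ x ∈ C, a⁻¹ * x * a ∈ C) := by
    rcases convex_chain hP hC (convex_conj hP hC a) with hle | hle
    · have hA : ∀ x ∈ C, a⁻¹ * x * a ∈ C := fun x hx => (hmem x).mp (hle hx)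
      refine ⟨?_, hA⟩
      intro x hx
      have hA' : ∀ x ∈ C, a⁻¹ * x * (a⁻¹)⁻¹ ∈ C := by simpa using hA
      have h2 := conj_iter hA' (n-1) _ (C.mul_mem (C.mul_mem ha hx) (C.inv_mem ha))
      have e : a⁻¹ ^ (n-1) * (a ^ n * x * (a ^ n)⁻¹) * (a⁻¹ ^ (n-1))⁻¹ = a * x * a⁻¹ := by
        obtain ⟨k, rfl⟩ : ∃ k, n = k + 1 := ⟨n - 1, by omega⟩
        rw [Nat.add_sub_cancel, pow_succ, inv_pow]; group
      rwa [e] at h2
    · have hA : ∀ x ∈ C, a * x * a⁻¹ ∈ C := by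
        intro x hx
        have h2 : a * x * a⁻¹ ∈ C.map (MulAut.conj a).toMonoidHom := by
          rw [hmem]; have e : a⁻¹ * (a * x * a⁻¹) * a = x := by group
          rw [e]; exact hx
        exact hle h2
      refine ⟨hA, ?_⟩
      intro x hx
      have h2 := conj_iter hA (n-1) _ (C.mul_mem (C.mul_mem (C.inv_mem ha) hx) ha)
      have e : a ^ (n-1) * ((a ^ n)⁻¹ * x * a ^ n) * (a ^ (n-1))⁻¹ = a⁻¹ * x * a := by
        obtain ⟨k, rfl⟩ : ∃ k, n = k + 1 := ⟨n - 1, by omega⟩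
        rw [Nat.add_sub_cancel, pow_succ]; group
      rwa [e] at h2
  constructor
  · exact h1.1 x
  · intro h
    have := h1.2 _ h
    have e : a⁻¹ * (a * x * a⁻¹) * a = x := by group
    rwa [e] at this

/-- the archimedean jump `C / D` is abelian -/
lemma comm_mod (hP : IsInvCone H P) {C D : Subgroup G} (hC : IsConvex H P C)
    (hD : IsConvex H P D) (hDC : D < C)
    (hmax : ∀ D' : Subgroup G, IsConvex H P D' → D' < C → D' ≤ D)
    (hnorm : ∀ g ∈ C, ∀ x ∈ D, g * x * g⁻¹ ∈ D) (x y : G) (hx : x ∈ C) (hy : y ∈ C) :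
    x⁻¹ * y⁻¹ * x * y ∈ D := by
  -- archimedean property
  have harch : ∀ w ∈ P, w ∈ C → w ∉ D → ∀ z ∈ C, ∃ k : ℕ, z⁻¹ * w ^ k ∈ P := by
    intro w hw hwC hwD z hz
    let E : Subgroup G :=
      { carrier := {z | z ∈ H ∧ ∃ k : ℕ, z⁻¹ * w ^ k ∈ P ∧ z * w ^ k ∈ P}
        one_mem' := ⟨H.one_mem, 1, by simpa using hw, by simpa using hw⟩
        inv_mem' := by
          rintro z ⟨h1, k, h2, h3⟩
          exact ⟨H.inv_mem h1, k, by simpa using h3, h2⟩
        mul_mem' := by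
          rintro z1 z2 ⟨h1, k, h2, h3⟩ ⟨h4, l, h5, h6⟩
          refine ⟨H.mul_mem h1 h4, k + l, ?_, ?_⟩
          · have e : (z1 * z2)⁻¹ * w ^ (k + l) = (z2⁻¹ * (z1⁻¹ * w ^ k) * z2) * (z2⁻¹ * w ^ l) := by
              rw [pow_add]; group
            rw [e]; exact hP.mul _ (P_conj' hP z2 h2) _ h5
          · have e : z1 * z2 * w ^ (k + l) = (z1 * (z2 * w ^ l) * z1⁻¹) * (z1 * w ^ k) := by
              rw [add_comm, pow_add]; group
            rw [e]; exact hP.mul _ (hP.conj z1 _ h6) _ h3 }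
    have hE : IsConvex H P E := by
      constructor
      · intro z hz; exact hz.1
      · rintro x ⟨h1, k, h2, h3⟩ y hy hyx
        refine ⟨hP.sub hy, k, ?_, ?_⟩
        · have e : y⁻¹ * w ^ k = (y⁻¹ * x) * (x⁻¹ * w ^ k) := by group
          rw [e]; exact hP.mul _ hyx _ h2
        · rcases Nat.eq_zero_or_pos k with hk | hk
          · rw [hk, pow_zero, mul_one]; exact hy
          · exact hP.mul _ hy _ (P_pow hP hw hk)
    have hEC : E ≤ C := by
      rintro z ⟨h1, k, h2, h3⟩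
      by_cases hz1 : z = 1
      · rw [hz1]; exact C.one_mem
      · rcases hP.tot z h1 hz1 with h | h
        · exact hC.conv _ (C.pow_mem hwC k) _ h h2
        · have := hC.conv _ (C.pow_mem hwC k) _ h (by simpa using h3)
          simpa using C.inv_mem this
    have hwE : w ∈ E := ⟨hP.sub hw, 2, by
      have e : w⁻¹ * w ^ 2 = w := by rw [pow_two]; group
      rw [e]; exact hw, by
      have e : w * w ^ 2 = w ^ 3 := by rw [← pow_succ']
      rw [e]; exact P_pow hP hw (by norm_num)⟩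
    have hECeq : E = C := by
      by_contra hne
      exact hwD (hmax E hE (lt_of_le_of_ne hEC hne) hwE)
    have : z ∈ E := by rw [hECeq]; exact hz
    obtain ⟨_, k, h2, _⟩ := this
    exact ⟨k, h2⟩
  -- the quotient group
  set D' : Subgroup C := D.subgroupOf C with hD'
  have hDn : D'.Normal := by
    constructor
    intro d hd g
    rw [hD', Subgroup.mem_subgroupOf] at hd ⊢
    exact hnorm _ g.2 _ hd
  let R : Set (C ⧸ D') := {q | ∃ z : C, (z : G) ∈ P ∧ (z : G) ∉ D ∧ (z : C ⧸ D') = q}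
  have hcomm := holder R ?_ ?_ ?_ ?_ ?_ ((⟨x, hx⟩ : C) : C ⧸ D') ((⟨y, hy⟩ : C) : C ⧸ D')
  · rw [← QuotientGroup.mk_mul, ← QuotientGroup.mk_mul, QuotientGroup.eq, hD',
      Subgroup.mem_subgroupOf] at hcomm
    have e : (((⟨x, hx⟩ : C) * ⟨y, hy⟩ : C)⁻¹ * ((⟨y, hy⟩ : C) * ⟨x, hx⟩) : C)
        = (⟨y⁻¹ * x⁻¹ * y * x, by
            exact C.mul_mem (C.mul_mem (C.mul_mem (C.inv_mem hy) (C.inv_mem hx)) hy) hx⟩ : C) := by
      apply Subtype.ext
      simp only [Subgroup.coe_mul, Subgroup.coe_inv]; group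
    rw [e] at hcomm
    have h2 : y⁻¹ * x⁻¹ * y * x ∈ D := hcomm
    have h3 := D.inv_mem h2
    have e2 : (y⁻¹ * x⁻¹ * y * x)⁻¹ = x⁻¹ * y⁻¹ * x * y := by group
    rwa [e2] at h3
  · rintro _ ⟨u, hu1, hu2, rfl⟩ _ ⟨v, hv1, hv2, rfl⟩
    exact ⟨u * v, hP.mul _ hu1 _ hv1, pos_mul hP hD hu1 hu2 hv1, rfl⟩
  · rintro ⟨u, hu1, hu2, hu3⟩
    apply hu2
    have := (QuotientGroup.eq_one_iff u).mp hu3
    rwa [hD', Subgroup.mem_subgroupOf] at this
  · intro q hq
    obtain ⟨u, rfl⟩ := QuotientGroup.mk_surjective q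
    have huD : (u : G) ∉ D := by
      intro h
      apply hq
      rw [QuotientGroup.eq_one_iff, hD', Subgroup.mem_subgroupOf]
      exact h
    have hu1 : (u : G) ≠ 1 := fun h => huD (by rw [h]; exact D.one_mem)
    rcases hP.tot (u : G) (hC.le u.2) hu1 with h | h
    · exact Or.inl ⟨u, h, huD, rfl⟩
    · exact Or.inr ⟨u⁻¹, by simpa using h, fun h' => huD (by simpa using D.inv_mem h'), rfl⟩
  · rintro g _ ⟨u, hu1, hu2, rfl⟩
    obtain ⟨g, rfl⟩ := QuotientGroup.mk_surjective g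
    refine ⟨g * u * g⁻¹, hP.conj _ _ hu1, ?_, rfl⟩
    intro h
    apply hu2
    have := hnorm (g⁻¹ : C) (g⁻¹ : C).2 _ h
    have e : ((g⁻¹ : C) : G) * ((g * u * g⁻¹ : C) : G) * ((g⁻¹ : C) : G)⁻¹ = (u : G) := by
      simp only [Subgroup.coe_mul, Subgroup.coe_inv]; group
    rwa [e] at this
  · rintro _ ⟨w, hw1, hw2, rfl⟩ z
    obtain ⟨z, rfl⟩ := QuotientGroup.mk_surjective z
    obtain ⟨k, hk⟩ := harch w hw1 w.2 hw2 z z.2
    refine ⟨k + 1, z⁻¹ * w ^ (k+1), ?_, ?_, rfl⟩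
    · have e : ((z⁻¹ * w ^ (k+1) : C) : G) = ((z : G)⁻¹ * (w : G) ^ k) * (w : G) := by
        simp only [Subgroup.coe_mul, Subgroup.coe_inv, Subgroup.coe_pow, pow_succ]; group
      rw [e]; exact hP.mul _ hk _ hw1
    · have e : ((z⁻¹ * w ^ (k+1) : C) : G) = ((z : G)⁻¹ * (w : G) ^ k) * (w : G) := by
        simp only [Subgroup.coe_mul, Subgroup.coe_inv, Subgroup.coe_pow, pow_succ]; group
      rw [e]; exact pos_mul' hP hD hk hw1 hw2

lemma norm_D [H.Normal] (hP : IsInvCone H P) {C D : Subgroup G} 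
    (hD : IsConvex H P D) (hDC : D < C)
    (hmax : ∀ D' : Subgroup G, IsConvex H P D' → D' < C → D' ≤ D) {g : G}
    (hg : ∀ x, x ∈ C ↔ g * x * g⁻¹ ∈ C) : ∀ x ∈ D, g * x * g⁻¹ ∈ D := by
  have h1 : D.map (MulAut.conj g).toMonoidHom ≤ C := by
    rintro _ ⟨d, hd, rfl⟩
    exact (hg d).mp (hDC.le hd)
  have h2 : D.map (MulAut.conj g).toMonoidHom ≠ C := by
    intro h
    apply not_le_of_gt hDC
    intro c hc
    have h3 : g * c * g⁻¹ ∈ D.map (MulAut.conj g).toMonoidHom := by rw [h]; exact (hg c).mp hc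
    obtain ⟨d, hd, he⟩ := h3
    have : d = c := by
      simp only [MulEquiv.toMonoidHom_eq_coe, MonoidHom.coe_coe, MulAut.conj_apply] at he
      exact mul_left_cancel (mul_right_cancel he)
    rw [← this]; exact hd
  have h3 := hmax _ (convex_conj hP hD g) (lt_of_le_of_ne h1 h2)
  intro x hx
  exact h3 ⟨x, hx, rfl⟩

lemma norm_inv {C : Subgroup G} {g : G} (hg : ∀ x, x ∈ C ↔ g * x * g⁻¹ ∈ C) :
    ∀ x, x ∈ C ↔ g⁻¹ * x * (g⁻¹)⁻¹ ∈ C := by
  intro x
  rw [hg (g⁻¹ * x * (g⁻¹)⁻¹)]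
  have e : g * (g⁻¹ * x * (g⁻¹)⁻¹) * g⁻¹ = x := by group
  rw [e]

lemma step [H.Normal] (hP : IsInvCone H P)
    (hper : ∀ g : G, ∃ n : ℕ, 1 ≤ n ∧ g ^ n ∈ H)
    (hEng : ∀ x y : G, ∃ n : ℕ, (ec y)^[n] x ∈ H) {C D : Subgroup G} (hC : IsConvex H P C)
    (hD : IsConvex H P D) (hDC : D < C)
    (hmax : ∀ D' : Subgroup G, IsConvex H P D' → D' < C → D' ≤ D)
    (hIH : ∀ g h : G, (∃ n : ℕ, 1 ≤ n ∧ g ^ n ∈ D) → (∃ n : ℕ, 1 ≤ n ∧ h ^ n ∈ D) →
      ∃ n : ℕ, 1 ≤ n ∧ (g * h) ^ n ∈ D)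
    {a b : G} {n : ℕ} (hn : 1 ≤ n) (ha : a ^ n ∈ C) (hb : b ^ n ∈ C) :
    (∃ k : ℕ, 1 ≤ k ∧ (a * b) ^ k ∈ C) ∧
    (a ∈ QQ P → b ∈ QQ P → ¬ ((∃ k : ℕ, 1 ≤ k ∧ a ^ k ∈ D) ∧ (∃ k : ℕ, 1 ≤ k ∧ b ^ k ∈ D)) →
      a * b ∈ QQ P) := by
  set K : Subgroup G := Subgroup.closure ({a, b} ∪ (C : Set G)) with hK
  have haK : a ∈ K := Subgroup.subset_closure (by simp)
  have hbK : b ∈ K := Subgroup.subset_closure (by simp)
  have hCK : C ≤ K := fun c hc => Subgroup.subset_closure (Or.inr hc)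
  -- everything in `K` normalises `C`
  have hKC : ∀ g ∈ K, ∀ x, x ∈ C ↔ g * x * g⁻¹ ∈ C := by
    intro g hg
    induction hg using Subgroup.closure_induction with
    | mem g hg =>
      rcases hg with hg | hg
      · rcases hg with rfl | rfl
        · exact normalizes hP hC hn ha
        · exact normalizes hP hC hn hb
      · intro x
        constructor
        · intro h; exact C.mul_mem (C.mul_mem hg h) (C.inv_mem hg)
        · intro h
          have := C.mul_mem (C.mul_mem (C.inv_mem hg) h) hg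
          have e : g⁻¹ * (g * x * g⁻¹) * g = x := by group
          rwa [e] at this
    | one => intro x; simp
    | mul g h _ _ ihg ihh =>
      intro x
      rw [ihh x, ihg]
      have e : g * (h * x * h⁻¹) * g⁻¹ = g * h * x * (g * h)⁻¹ := by group
      rw [e]
    | inv g _ ih => exact norm_inv ih
  have hKD : ∀ g ∈ K, ∀ x ∈ D, g * x * g⁻¹ ∈ D := fun g hg =>
    norm_D hP hD hDC hmax (hKC g hg)
  have hKD' : ∀ g ∈ K, ∀ x ∈ D, g⁻¹ * x * g ∈ D := by
    intro g hg x hx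
    have := hKD g⁻¹ (K.inv_mem hg) x hx
    simpa using this
  have hKC1 : ∀ g ∈ K, ∀ x ∈ C, g * x * g⁻¹ ∈ C := fun g hg x hx => (hKC g hg x).mp hx
  have hKC' : ∀ g ∈ K, ∀ x ∈ C, g⁻¹ * x * g ∈ C := by
    intro g hg x hx
    have := hKC1 g⁻¹ (K.inv_mem hg) x hx
    simpa using this
  -- Hölder
  have hcm : ∀ x ∈ C, ∀ y ∈ C, x⁻¹ * y⁻¹ * x * y ∈ D := fun x hx y hy =>
    comm_mod hP hC hD hDC hmax (fun g hg => hKD g (hCK hg)) x y hx hy
  -- `C / D` is central in `K / D`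
  have hcD : ∀ k ∈ K, ∀ c ∈ C, c⁻¹ * k⁻¹ * c * k ∈ D := by
    intro k hk
    induction hk using Subgroup.closure_induction with
    | mem g hg =>
      rcases hg with hg | hg
      · rcases hg with rfl | rfl
        · intro c hc
          exact tele hP hD (hC.le hc) (hKD _ haK) hn (hcm c hc _ ha)
        · intro c hc
          exact tele hP hD (hC.le hc) (hKD _ hbK) hn (hcm c hc _ hb)
      · intro c hc
        exact hcm c hc g hg
    | one => intro c _; simp
    | mul g h hg hh ihg ihh =>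
      intro c hc
      have e : c⁻¹ * (g * h)⁻¹ * c * (g * h) = (c⁻¹ * h⁻¹ * c * h) * (h⁻¹ * (c⁻¹ * g⁻¹ * c * g) * h) := by
        group
      rw [e]
      exact D.mul_mem (ihh c hc) (hKD' h hh _ (ihg c hc))
    | inv g hg ih =>
      intro c hc
      have e : c⁻¹ * (g⁻¹)⁻¹ * c * g⁻¹ = g * (c⁻¹ * g⁻¹ * c * g)⁻¹ * g⁻¹ := by group
      rw [e]
      exact hKD g hg _ (D.inv_mem (ih c hc))
  -- `(K ∩ H) / C` is central in `K / C`
  have hcN : ∀ k ∈ K, ∀ x ∈ K, x ∈ H → x⁻¹ * k⁻¹ * x * k ∈ C := by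
    intro k hk
    have gen : ∀ a ∈ K, a ^ n ∈ C → ∀ x ∈ K, x ∈ H → x⁻¹ * a⁻¹ * x * a ∈ C := by
      intro a haK ha x hx hxH
      refine tele hP hC hxH (hKC1 a haK) hn ?_
      exact C.mul_mem (hKC' x hx _ (C.inv_mem ha)) ha
    induction hk using Subgroup.closure_induction with
    | mem g hg =>
      rcases hg with hg | hg
      · rcases hg with rfl | rfl
        · exact gen _ haK ha
        · exact gen _ hbK hb
      · intro x hx _
        exact C.mul_mem (hKC' x hx _ (C.inv_mem hg)) hg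
    | one => intro c _ _; simp
    | mul g h hg hh ihg ihh =>
      intro c hc hcH
      have e : c⁻¹ * (g * h)⁻¹ * c * (g * h) = (c⁻¹ * h⁻¹ * c * h) * (h⁻¹ * (c⁻¹ * g⁻¹ * c * g) * h) := by
        group
      rw [e]
      exact C.mul_mem (ihh c hc hcH) (hKC' h hh _ (ihg c hc hcH))
    | inv g hg ih =>
      intro c hc hcH
      have e : c⁻¹ * (g⁻¹)⁻¹ * c * g⁻¹ = g * (c⁻¹ * g⁻¹ * c * g)⁻¹ * g⁻¹ := by group
      rw [e]
      exact hKC1 g hg _ (C.inv_mem (ih c hc hcH))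
  -- the torsion modulo `D`
  let T : Subgroup K :=
    { carrier := {g | ∃ j : ℕ, 1 ≤ j ∧ (g : G) ^ j ∈ D}
      one_mem' := ⟨1, le_rfl, by simp⟩
      mul_mem' := fun {g h} hg hh => hIH (g : G) (h : G) hg hh
      inv_mem' := by
        rintro g ⟨j, hj, h⟩
        exact ⟨j, hj, by rw [Subgroup.coe_inv, inv_pow]; exact D.inv_mem h⟩ }
  have hTmem : ∀ g : K, g ∈ T ↔ ∃ j : ℕ, 1 ≤ j ∧ (g : G) ^ j ∈ D := fun g => Iff.rfl
  have hTn : T.Normal := by
    constructor
    rintro g ⟨j, hj, h⟩ k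
    refine ⟨j, hj, ?_⟩
    have e : ((k * g * k⁻¹ : K) : G) ^ j = (k : G) * (g : G) ^ j * (k : G)⁻¹ := by
      rw [Subgroup.coe_mul, Subgroup.coe_mul, Subgroup.coe_inv, conj_pow]
    rw [e]
    exact hKD _ k.2 _ h
  have hDT : ∀ g : K, (g : G) ∈ D → g ∈ T := fun g hg => ⟨1, le_rfl, by simpa using hg⟩
  have htfX : ∀ g : K ⧸ T, ∀ n : ℕ, 1 ≤ n → g ^ n = 1 → g = 1 := by
    intro g m hm hg
    obtain ⟨g, rfl⟩ := QuotientGroup.mk_surjective g
    rw [← QuotientGroup.mk_pow, QuotientGroup.eq_one_iff] at hg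
    obtain ⟨j, hj, h⟩ := hg
    rw [QuotientGroup.eq_one_iff]
    refine ⟨m * j, Nat.one_le_iff_ne_zero.mpr (by positivity), ?_⟩
    rw [pow_mul]; simpa using h
  have hcoe : ∀ (y : K) (m : ℕ) (x : K), (((ec y)^[m] x : K) : G) = (ec (y : G))^[m] (x : G) := by
    intro y m
    induction m with
    | zero => intro x; rfl
    | succ m ih => intro x; rw [Function.iterate_succ_apply, Function.iterate_succ_apply, ih]; rfl
  have hmk : ∀ (y : K) (m : ℕ) (x : K), (((ec y)^[m] x : K) : K ⧸ T)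
      = (ec (y : K ⧸ T))^[m] (x : K ⧸ T) := by
    intro y m
    induction m with
    | zero => intro x; rfl
    | succ m ih => intro x; rw [Function.iterate_succ_apply, Function.iterate_succ_apply, ih]; rfl
  have hEX : ∀ x y : K ⧸ T, ∃ m : ℕ, (ec y)^[m] x = 1 := by
    intro x y
    obtain ⟨x, rfl⟩ := QuotientGroup.mk_surjective x
    obtain ⟨y, rfl⟩ := QuotientGroup.mk_surjective y
    obtain ⟨m, hm⟩ := hEng (x : G) (y : G)
    refine ⟨m + 2, ?_⟩
    rw [← hmk, QuotientGroup.eq_one_iff]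
    apply hDT
    have e : (((ec y)^[m+2] x : K) : G) = ec (y : G) (ec (y : G) ((ec (y : G))^[m] (x : G))) := by
      rw [hcoe, Function.iterate_succ_apply', Function.iterate_succ_apply']
    rw [e]
    have h1 : (ec (y : G))^[m] (x : G) ∈ K := by rw [← hcoe]; exact ((ec y)^[m] x).2
    have h2 : ec (y : G) ((ec (y : G))^[m] (x : G)) ∈ C := hcN _ y.2 _ h1 hm
    exact hcD _ y.2 _ h2
  -- `a` and `b` commute modulo `T`
  set A : K := ⟨a, haK⟩ with hA
  set B : K := ⟨b, hbK⟩ with hB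
  have hcomm : (B : K ⧸ T) * (A : K ⧸ T) = (A : K ⧸ T) * (B : K ⧸ T) := by
    refine engel_isolated htfX hEX _ _ n hn ?_
    rw [← QuotientGroup.mk_pow, ← QuotientGroup.mk_mul, ← QuotientGroup.mk_mul, QuotientGroup.eq]
    apply hDT
    have h1 := hcD b hbK (a ^ n) ha
    have e : (((B * A ^ n)⁻¹ * (A ^ n * B) : K) : G) = (a ^ n)⁻¹ * b⁻¹ * (a ^ n) * b := by
      simp only [Subgroup.coe_mul, Subgroup.coe_inv, Subgroup.coe_pow, hA, hB]; group
    rw [e]; exact h1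
  obtain ⟨q, hq, hqH⟩ := hper ((a * b) ^ n)
  set c := a ^ n * b ^ n with hc
  have hcC : c ∈ C := C.mul_mem ha hb
  -- `(ab)^(nq) = c^q τ'`
  set τ := (c ^ q)⁻¹ * ((a * b) ^ n) ^ q with hτ
  have hτH : τ ∈ H := H.mul_mem (H.inv_mem (H.pow_mem (hC.le hcC) q)) hqH
  have hτD : τ ∈ D := by
    have h1 : ((((A ^ n * B ^ n) ^ q)⁻¹ * ((A * B) ^ n) ^ q : K) : K ⧸ T) = 1 := by
      have hcAB : Commute (A : K ⧸ T) (B : K ⧸ T) := hcomm.symm
      simp only [QuotientGroup.mk_mul, QuotientGroup.mk_inv, QuotientGroup.mk_pow]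
      rw [hcAB.mul_pow n, inv_mul_cancel]
    rw [QuotientGroup.eq_one_iff] at h1
    obtain ⟨j, hj, h2⟩ := h1
    refine convex_root hP hD hτH hj ?_
    have e : ((((A ^ n * B ^ n) ^ q)⁻¹ * ((A * B) ^ n) ^ q : K) : G) = τ := by
      simp only [Subgroup.coe_mul, Subgroup.coe_inv, Subgroup.coe_pow, hA, hB, hτ, hc]
    rwa [e] at h2
  have hpow : (a * b) ^ (n * q) = c ^ q * τ := by
    rw [pow_mul, hτ]; group
  have hnq : 1 ≤ n * q := Nat.one_le_iff_ne_zero.mpr (by positivity)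
  refine ⟨⟨n * q, hnq, ?_⟩, ?_⟩
  · rw [hpow]; exact C.mul_mem (C.pow_mem hcC q) (hDC.le hτD)
  · intro haQ hbQ hnot
    have haP : a ^ n ∈ P := (QQ_H hP (hC.le ha)).mp (QQ_pow hP haQ hn)
    have hbP : b ^ n ∈ P := (QQ_H hP (hC.le hb)).mp (QQ_pow hP hbQ hn)
    have hcP : c ∈ P := hP.mul _ haP _ hbP
    have hcD' : c ∉ D := by
      intro h
      apply hnot
      refine ⟨⟨n, hn, ?_⟩, ⟨n, hn, ?_⟩⟩
      · refine hD.conv c h _ haP ?_
        have e : (a ^ n)⁻¹ * c = b ^ n := by rw [hc]; group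
        rw [e]; exact hbP
      · refine hD.conv c h _ hbP ?_
        have e : (b ^ n)⁻¹ * c = (b ^ n)⁻¹ * a ^ n * b ^ n := by rw [hc]; group
        rw [e]; exact P_conj' hP _ haP
    have hcqP : c ^ q ∈ P := P_pow hP hcP hq
    have hcqD : c ^ q ∉ D := fun h => hcD' (convex_root hP hD (hC.le hcC) hq h)
    have hfin : c ^ q * τ ∈ P := by
      have hH : c ^ q * τ ∈ H := H.mul_mem (hP.sub hcqP) hτH
      have h1 : c ^ q * τ ≠ 1 := by
        intro h
        apply hcqD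
        rw [mul_eq_one_iff_eq_inv.mp h]; exact D.inv_mem hτD
      rcases hP.tot _ hH h1 with h2 | h2
      · exact h2
      · exfalso
        apply hcqD
        refine hD.conv τ⁻¹ (D.inv_mem hτD) _ hcqP ?_
        have h3 := hP.conj τ _ h2
        have e : τ * (c ^ q * τ)⁻¹ * τ⁻¹ = (c ^ q)⁻¹ * τ⁻¹ := by group
        rwa [e] at h3
    refine QQ_of_pow hnq (QQ_P hP ?_)
    rw [hpow]; exact hfin

/-- No infinite strictly descending chain of convex subgroups. -/
theorem wf_case [H.Normal] (hP : IsInvCone H P)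
    (htf : ∀ g : G, ∀ n : ℕ, 1 ≤ n → g ^ n = 1 → g = 1)
    (hper : ∀ g : G, ∃ n : ℕ, 1 ≤ n ∧ g ^ n ∈ H)
    (hEng : ∀ x y : G, ∃ n : ℕ, (ec y)^[n] x ∈ H)
    (hwf : ¬ ∃ f : ℕ → Subgroup G, ∀ n, IsConvex H P (f n) ∧ f (n+1) < f n) :
    Extends H P := by
  have hwf' : WellFounded (fun C D : {C : Subgroup G // IsConvex H P C} => C.1 < D.1) := by
    rw [wellFounded_iff_isEmpty_descending_chain]
    constructor
    rintro ⟨f, hf⟩
    exact hwf ⟨fun n => (f n).1, fun n => ⟨(f n).2, hf n⟩⟩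
  have main : ∀ C : {C : Subgroup G // IsConvex H P C}, ∀ a b : G,
      (∃ n : ℕ, 1 ≤ n ∧ a ^ n ∈ C.1) → (∃ n : ℕ, 1 ≤ n ∧ b ^ n ∈ C.1) →
      (∃ n : ℕ, 1 ≤ n ∧ (a * b) ^ n ∈ C.1) ∧ (a ∈ QQ P → b ∈ QQ P → a * b ∈ QQ P) := by
    intro C
    induction C using hwf'.induction with
    | _ C ih =>
      obtain ⟨C, hC⟩ := C
      intro a b hna hmb
      obtain ⟨n, hn, ha⟩ := hna
      obtain ⟨m, hm, hb⟩ := hmb
      simp only at ha hb ⊢
      by_cases hex : ∃ D : Subgroup G, IsConvex H P D ∧ D < C ∧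
          (∃ n : ℕ, 1 ≤ n ∧ a ^ n ∈ D) ∧ (∃ n : ℕ, 1 ≤ n ∧ b ^ n ∈ D)
      · obtain ⟨D, hD, hDC, h1, h2⟩ := hex
        obtain ⟨⟨k, hk, h3⟩, h4⟩ := ih ⟨D, hD⟩ hDC a b h1 h2
        exact ⟨⟨k, hk, hDC.le h3⟩, h4⟩
      by_cases hCbot : C = ⊥
      · have ha1 : a = 1 := htf a n hn (by rw [hCbot] at ha; simpa using ha)
        have hb1 : b = 1 := htf b m hm (by rw [hCbot] at hb; simpa using hb)
        refine ⟨⟨1, le_rfl, by rw [ha1, hb1]; simp⟩, ?_⟩
        intro h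
        rw [ha1] at h
        exact absurd h (QQ_one hP)
      -- the largest convex subgroup properly contained in `C`
      set 𝒮 : Set (Subgroup G) := {D | IsConvex H P D ∧ D < C} with h𝒮
      have hbot : IsConvex H P (⊥ : Subgroup G) := by
        constructor
        · exact bot_le
        · intro x hx y hy h
          rw [Subgroup.mem_bot] at hx
          rw [hx, mul_one] at h
          exact absurd h (P_not_inv hP hy)
      have hne : 𝒮.Nonempty := ⟨⊥, hbot, bot_lt_iff_ne_bot.mpr hCbot⟩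
      have hdir : DirectedOn (· ≤ ·) 𝒮 := by
        intro D1 h1 D2 h2
        rcases convex_chain hP h1.1 h2.1 with h | h
        · exact ⟨D2, h2, h, le_rfl⟩
        · exact ⟨D1, h1, le_rfl, h⟩
      set D : Subgroup G := sSup 𝒮 with hDdef
      have hmem : ∀ x, x ∈ D ↔ ∃ D' ∈ 𝒮, x ∈ D' := fun x =>
        Subgroup.mem_sSup_of_directedOn hne hdir
      have hD : IsConvex H P D := by
        constructor
        · intro x hx
          obtain ⟨D', h1, h2⟩ := (hmem x).mp hx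
          exact h1.1.le h2
        · intro x hx y hy h
          obtain ⟨D', h1, h2⟩ := (hmem x).mp hx
          exact (hmem y).mpr ⟨D', h1, h1.1.conv x h2 y hy h⟩
      have hDle : D ≤ C := by
        intro x hx
        obtain ⟨D', h1, h2⟩ := (hmem x).mp hx
        exact h1.2.le h2
      have hDC : D < C := by
        refine lt_of_le_of_ne hDle ?_
        intro heq
        rw [← heq] at ha hb
        obtain ⟨D1, h1, h2⟩ := (hmem _).mp ha
        obtain ⟨D2, h3, h4⟩ := (hmem _).mp hb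
        obtain ⟨D3, h5, h6, h7⟩ := hdir D1 h1 D2 h3
        exact hex ⟨D3, h5.1, h5.2, ⟨n, hn, h6 h2⟩, ⟨m, hm, h7 h4⟩⟩
      have hmax : ∀ D' : Subgroup G, IsConvex H P D' → D' < C → D' ≤ D := by
        intro D' h1 h2 x hx
        exact (hmem x).mpr ⟨D', ⟨h1, h2⟩, hx⟩
      have hIH : ∀ g h : G, (∃ n : ℕ, 1 ≤ n ∧ g ^ n ∈ D) → (∃ n : ℕ, 1 ≤ n ∧ h ^ n ∈ D) →
          ∃ n : ℕ, 1 ≤ n ∧ (g * h) ^ n ∈ D := fun g h h1 h2 => (ih ⟨D, hD⟩ hDC g h h1 h2).1
      have hnm : 1 ≤ n * m := Nat.one_le_iff_ne_zero.mpr (by positivity)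
      have hs := step hP hper hEng hC hD hDC hmax hIH (a := a) (b := b) hnm
        (by rw [pow_mul]; exact C.pow_mem ha m) (by rw [mul_comm, pow_mul]; exact C.pow_mem hb n)
      refine ⟨hs.1, fun h1 h2 => hs.2 h1 h2 ?_⟩
      rintro ⟨h3, h4⟩
      exact hex ⟨D, hD, hDC, h3, h4⟩
  have hHc : IsConvex H P H := ⟨le_rfl, fun x _ y hy _ => hP.sub hy⟩
  refine extends_of_closed hP htf hper ?_
  intro a ha b hb
  exact (main ⟨H, hHc⟩ a b (hper a) (hper b)).2 ha hb

end convex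

/-- Let `G` be torsion-free, `H` a normal subgroup with `G ⧸ H` periodic, and `P` the positive
cone of a `G`-invariant order on `H`.
(1) If every 2-generated subgroup of `G ⧸ H` is soluble, the order extends to `G`
(for arbitrary `H`).
(2) If `G ⧸ H` is Engel and `H` is nilpotent, the order extends to `G`.
(3) If `G ⧸ H` is Engel and there is no infinite strictly descending chain of convex subgroups
of `H`, the order extends to `G` (for arbitrary `H`). -/
theorem result {G : Type} [Group G] (H : Subgroup G) [H.Normal]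
    (htf : ∀ g : G, g ≠ 1 → ¬ IsOfFinOrder g) (hper : ∀ x : G ⧸ H, IsOfFinOrder x)
    (P : Set G) (hP : IsInvCone H P) :
    ((∀ a b : G ⧸ H, Group.IsSolvable (Subgroup.closure {a, b})) → Extends H P) ∧
    ((∀ x y : G ⧸ H, ∃ n : ℕ, (fun z : G ⧸ H => z⁻¹ * y⁻¹ * z * y)^[n] x = 1) →
      Group.IsNilpotent H → Extends H P) ∧
    ((∀ x y : G ⧸ H, ∃ n : ℕ, (fun z : G ⧸ H => z⁻¹ * y⁻¹ * z * y)^[n] x = 1) →
      (¬ ∃ f : ℕ → Subgroup G, ∀ n, IsConvex H P (f n) ∧ f (n+1) < f n) → Extends H P) := by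
  have htf' : ∀ g : G, ∀ n : ℕ, 1 ≤ n → g ^ n = 1 → g = 1 := by
    intro g n hn h
    by_contra hg
    exact htf g hg (isOfFinOrder_iff_pow_eq_one.mpr ⟨n, hn, h⟩)
  have hper' : ∀ g : G, ∃ n : ℕ, 1 ≤ n ∧ g ^ n ∈ H := by
    intro g
    obtain ⟨n, hn, h⟩ := isOfFinOrder_iff_pow_eq_one.mp (hper (g : G ⧸ H))
    exact ⟨n, hn, by rw [← QuotientGroup.eq_one_iff, QuotientGroup.mk_pow]; exact h⟩
  have hE : (∀ x y : G ⧸ H, ∃ n : ℕ, (fun z : G ⧸ H => z⁻¹ * y⁻¹ * z * y)^[n] x = 1) →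
      ∀ x y : G, ∃ n : ℕ, (ec y)^[n] x ∈ H := by
    intro h x y
    obtain ⟨n, hn⟩ := h (x : G ⧸ H) (y : G ⧸ H)
    refine ⟨n, ?_⟩
    rw [← QuotientGroup.eq_one_iff]
    have hmk : ∀ (m : ℕ) (x : G), (((ec y)^[m] x : G) : G ⧸ H)
        = (fun z : G ⧸ H => z⁻¹ * (y : G ⧸ H)⁻¹ * z * (y : G ⧸ H))^[m] (x : G ⧸ H) := by
      intro m
      induction m with
      | zero => intro x; rfl
      | succ m ih => intro x; rw [Function.iterate_succ_apply, Function.iterate_succ_apply, ih]; rfl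
    rw [hmk]; exact hn
  refine ⟨?_, ?_, ?_⟩
  · intro hs
    refine extends_of_closed hP htf' hper' ?_
    intro a ha b hb
    exact closed_of_soluble hP htf' hper' _ (hs (a : G ⧸ H) (b : G ⧸ H)) ha hb
      (Subgroup.subset_closure (by simp)) (Subgroup.subset_closure (by simp))
  · intro hEng hnil
    exact nilpotent_case hP htf' hper' (hE hEng) hnil
  · intro hEng hwf
    exact wf_case hP htf' hper' (hE hEng) hwf

end Pool.Agent.Results.MP_611b97_al.Extend
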